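import Mathlib

set_option autoImplicit false

/-!
# Pinwheel scheduling with durations: `α* ≤ (1 + √17) / 8`

Take four jobs with durations `a, b, b, b` and frequencies `a + 2 b - 1`, `3 a + 3 b - 1`,
`4 a + 4 b - 1` and `100 b`, where `a / b` is about `(√17 - 1) / 4`. Between two processings of `J₁`
only one of the other jobs fits. Around a processing of `J₄`, the job `J₂` has to be processed
immediately before and after (up to `J₁`), so the gap of `J₃` is too long.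
-/

namespace Pool.Agent.Results.MP_020ed8_lc.UpperBound

open Finset

/-- a DAPS instance -/
structure Inst where
  n : ℕ
  pos : 1 ≤ n
  f : Fin n → ℕ
  p : Fin n → ℕ
  f_pos : ∀ i, 1 ≤ f i
  p_pos : ∀ i, 1 ≤ p i
  mono : Monotone f

/-- `S` is a feasible schedule for `V`: every job is processed infinitely often, and
`∑_{t = a + 1}^{b} p (S t) ≤ f i` for consecutive elements `a < b` of `S⁻¹ (i)` -/
def FeasibleSchedule (V : Inst) (S : ℕ → Fin V.n) : Prop :=
  ∀ i, (∀ N, ∃ t, N ≤ t ∧ S t = i) ∧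
    ∀ a b : ℕ, a < b → S a = i → S b = i → (∀ t, a < t → t < b → S t ≠ i) →
      ∑ t ∈ Ioc a b, V.p (S t) ≤ V.f i

/-- `V` is feasible -/
def Feasible (V : Inst) : Prop := ∃ S, FeasibleSchedule V S

/-- the density -/
noncomputable def rho (V : Inst) : ℝ := ∑ i, (V.p i : ℝ) / V.f i

/-- the term of `i` in the localized measure -/
noncomputable def muTerm (V : Inst) (i : Fin V.n) : ℝ :=
  ((∑ j ∈ {j | j ≤ i}, (V.f i / V.f j) * V.p j + ({j | i < j} : Finset (Fin V.n)).sup V.p : ℕ) : ℝ) /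
    V.f i

/-- `L (V) ≤ α` -/
def LLe (V : Inst) (α : ℝ) : Prop := rho V ≤ α ∧ ∀ i : Fin V.n, i.val + 1 < V.n → muTerm V i ≤ α

/-- the threshold -/
noncomputable def alphaStar : ℝ := sSup {α : ℝ | ∀ V : Inst, LLe V α → Feasible V}

/-- the instance -/
def Vab (a b : ℕ) (ha : 1 ≤ a) (hb : 1 ≤ b) (hab : a + 1 < b) : Inst where
  n := 4
  pos := by norm_num
  f := ![a + 2 * b - 1, 3 * a + 3 * b - 1, 4 * a + 4 * b - 1, 100 * b]
  p := ![a, b, b, b]
  f_pos := by intro i; fin_cases i <;> simp <;> omega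
  p_pos := by intro i; fin_cases i <;> simp <;> omega
  mono := by
    intro i j hij
    fin_cases i <;> fin_cases j <;> simp at hij ⊢ <;> omega

/-- the last occurrence before and the first one after `t0` -/
lemma around {n : ℕ} (S : ℕ → Fin n) (i : Fin n) (h : ∀ N, ∃ t, N ≤ t ∧ S t = i) (t0 : ℕ)
    (h0 : S t0 ≠ i) (hb : ∃ t, t < t0 ∧ S t = i) :
    ∃ a b, a < t0 ∧ t0 < b ∧ S a = i ∧ S b = i ∧ ∀ t, a < t → t < b → S t ≠ i := by
  classical
  obtain ⟨u, hu, hui⟩ := hb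
  let a := Nat.findGreatest (fun t => S t = i) t0
  have ha1 : S a = i := Nat.findGreatest_spec (P := fun t => S t = i) hu.le hui
  have ha2 : a ≤ t0 := Nat.findGreatest_le _
  have ha3 : a < t0 := lt_of_le_of_ne ha2 (by rintro h1; rw [h1] at ha1; exact h0 ha1)
  have hex : ∃ t, t0 ≤ t ∧ S t = i := h t0
  let b := Nat.find hex
  have hb1 := Nat.find_spec hex
  have hb2 : t0 < b := lt_of_le_of_ne hb1.1 (by
    intro h1
    have := hb1.2
    change S b = i at this
    rw [← h1] at this; exact h0 this)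
  refine ⟨a, b, ha3, hb2, ha1, hb1.2, fun t h1 h2 h3 => ?_⟩
  rcases le_or_gt t t0 with h4 | h4
  · have : t ≤ a := Nat.le_findGreatest h4 h3
    omega
  · exact Nat.find_min hex h2 ⟨h4.le, h3⟩

lemma infeasible (a b : ℕ) (ha : 1 ≤ a) (hb : 1 ≤ b) (hab : a + 1 < b) :
    ¬ Feasible (Vab a b ha hb hab) := by
  rintro ⟨S, hS⟩
  have S' : ∃ S' : ℕ → Fin 4, S' = S := ⟨S, rfl⟩
  obtain ⟨S', hS'⟩ := S'
  have H : ∀ i : Fin 4, (∀ N, ∃ t, N ≤ t ∧ S' t = i) ∧
    ∀ u v : ℕ, u < v → S' u = i → S' v = i → (∀ t, u < t → t < v → S' t ≠ i) →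
      ∑ t ∈ Ioc u v, (![a, b, b, b] : Fin 4 → ℕ) (S' t) ≤
        (![a + 2 * b - 1, 3 * a + 3 * b - 1, 4 * a + 4 * b - 1, 100 * b] : Fin 4 → ℕ) i := by
    rw [hS']; exact hS
  have hval : ∀ i : Fin 4, i ≠ 0 → (![a, b, b, b] : Fin 4 → ℕ) i = b := by
    intro i hi
    fin_cases i
    · exact absurd rfl hi
    · rfl
    · rfl
    · rfl
  have hsep : ∀ u v : ℕ, u < v → S' u ≠ 0 → S' v ≠ 0 →
      (∃ t, t < u ∧ S' t = 0) → ∃ t, u < t ∧ t < v ∧ S' t = 0 := by
    intro u v huv hu hv hp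
    by_contra hcon
    push Not at hcon
    obtain ⟨a1, a2, h1, h2, h3, h4, h5⟩ := around S' 0 (H 0).1 u hu hp
    have h6 : v < a2 := by
      rcases lt_trichotomy a2 v with h | h | h
      · exact absurd h4 (hcon a2 h2 h)
      · rw [h] at h4; exact absurd h4 hv
      · exact h
    have c1 := (H 0).2 a1 a2 (by omega) h3 h4 h5
    have h9 : ∑ t ∈ ({u, v, a2} : Finset ℕ), (![a, b, b, b] : Fin 4 → ℕ) (S' t) ≤
        ∑ t ∈ Ioc a1 a2, (![a, b, b, b] : Fin 4 → ℕ) (S' t) := by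
      apply sum_le_sum_of_subset
      intro w hw
      simp only [mem_insert, mem_singleton] at hw
      rw [mem_Ioc]
      omega
    rw [sum_insert (by simp only [mem_insert, mem_singleton]; omega),
      sum_insert (by simp only [mem_singleton]; omega), sum_singleton, hval _ hu, hval _ hv, h4] at h9
    simp only [Matrix.cons_val_zero] at h9 c1
    omega
  -- three other processings
  have gap3 : ∀ x1 y1 t0 x2 : ℕ, x1 < y1 → y1 < t0 → t0 < x2 → S' x1 ≠ 0 → S' y1 ≠ 0 → S' t0 ≠ 0 →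
      S' x2 ≠ 0 → (∃ t, t < x1 ∧ S' t = 0) →
      3 * a + 3 * b ≤ ∑ t ∈ Ioc x1 x2, (![a, b, b, b] : Fin 4 → ℕ) (S' t) := by
    intro x1 y1 t0 x2 h1 h2 h3 e1 e2 e3 e4 hp
    obtain ⟨w, hw1, hw2⟩ := hp
    obtain ⟨z1, a1, a2, a3⟩ := hsep x1 y1 h1 e1 e2 ⟨w, hw1, hw2⟩
    obtain ⟨z2, b1, b2, b3⟩ := hsep y1 t0 h2 e2 e3 ⟨w, by omega, hw2⟩
    obtain ⟨z3, c1, c2, c3⟩ := hsep t0 x2 h3 e3 e4 ⟨w, by omega, hw2⟩
    have h9 : ∑ t ∈ ({z1, y1, z2, t0, z3, x2} : Finset ℕ), (![a, b, b, b] : Fin 4 → ℕ) (S' t) ≤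
        ∑ t ∈ Ioc x1 x2, (![a, b, b, b] : Fin 4 → ℕ) (S' t) := by
      apply sum_le_sum_of_subset
      intro w hw
      simp only [mem_insert, mem_singleton] at hw
      rw [mem_Ioc]
      omega
    rw [sum_insert (by simp only [mem_insert, mem_singleton]; omega),
      sum_insert (by simp only [mem_insert, mem_singleton]; omega),
      sum_insert (by simp only [mem_insert, mem_singleton]; omega),
      sum_insert (by simp only [mem_insert, mem_singleton]; omega),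
      sum_insert (by simp only [mem_singleton]; omega), sum_singleton, hval _ e2, hval _ e3, hval _ e4,
      a3, b3, c3] at h9
    simp only [Matrix.cons_val_zero] at h9
    omega
  obtain ⟨u0, _, hu0⟩ := (H 0).1 0
  obtain ⟨u1, hu1', hu1⟩ := (H 1).1 (u0 + 1)
  obtain ⟨u2, hu2', hu2⟩ := (H 2).1 (u0 + 1)
  obtain ⟨t0, ht0, ht0'⟩ := (H 3).1 (u1 + u2 + 1)
  obtain ⟨b1, b2, g1, g2, g3, g4, g5⟩ := around S' 1 (H 1).1 t0 (by rw [ht0']; decide)
    ⟨u1, by omega, hu1⟩
  obtain ⟨c1, c2, k1, k2, k3, k4, k5⟩ := around S' 2 (H 2).1 t0 (by rw [ht0']; decide)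
    ⟨u2, by omega, hu2⟩
  have hb1 : u0 < b1 := by
    rcases le_or_gt u1 b1 with h | h
    · omega
    · exact absurd hu1 (g5 u1 h (by omega))
  have hc1 : u0 < c1 := by
    rcases le_or_gt u2 c1 with h | h
    · omega
    · exact absurd hu2 (k5 u2 h (by omega))
  have n1 : S' t0 ≠ 0 := by rw [ht0']; decide
  have nb1 : S' b1 ≠ 0 := by rw [g3]; decide
  have nb2 : S' b2 ≠ 0 := by rw [g4]; decide
  have nc1 : S' c1 ≠ 0 := by rw [k3]; decide
  have nc2 : S' c2 ≠ 0 := by rw [k4]; decide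
  have q1 := (H 1).2 b1 b2 (by omega) g3 g4 g5
  simp only [Matrix.cons_val_one, Matrix.cons_val_zero] at q1
  have d1 : c1 < b1 := by
    rcases lt_trichotomy c1 b1 with h | h | h
    · exact h
    · rw [h, g3] at k3; exact absurd k3 (by decide)
    · have q2 := gap3 b1 c1 t0 b2 h k1 g2 nb1 nc1 n1 nb2 ⟨u0, hb1, hu0⟩
      omega
  have d2 : b2 < c2 := by
    rcases lt_trichotomy b2 c2 with h | h | h
    · exact h
    · rw [← h, g4] at k4; exact absurd k4 (by decide)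
    · have q2 := gap3 b1 t0 c2 b2 g1 k2 h nb1 n1 nc2 nb2 ⟨u0, hb1, hu0⟩
      omega
  have q3 := (H 2).2 c1 c2 (by omega) k3 k4 k5
  simp only [Matrix.cons_val] at q3
  obtain ⟨z1, a1, a2, a3⟩ := hsep c1 b1 d1 nc1 nb1 ⟨u0, hc1, hu0⟩
  obtain ⟨z2, e1, e2, e3⟩ := hsep b1 t0 g1 nb1 n1 ⟨u0, hb1, hu0⟩
  obtain ⟨z3, l1, l2, l3⟩ := hsep t0 b2 g2 n1 nb2 ⟨u0, by omega, hu0⟩
  obtain ⟨z4, m1, m2, m3⟩ := hsep b2 c2 d2 nb2 nc2 ⟨u0, by omega, hu0⟩
  have h9 : ∑ t ∈ ({z1, b1, z2, t0, z3, b2, z4, c2} : Finset ℕ),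
      (![a, b, b, b] : Fin 4 → ℕ) (S' t) ≤
      ∑ t ∈ Ioc c1 c2, (![a, b, b, b] : Fin 4 → ℕ) (S' t) := by
    apply sum_le_sum_of_subset
    intro w hw
    simp only [mem_insert, mem_singleton] at hw
    rw [mem_Ioc]
    omega
  rw [sum_insert (by simp only [mem_insert, mem_singleton]; omega),
    sum_insert (by simp only [mem_insert, mem_singleton]; omega),
    sum_insert (by simp only [mem_insert, mem_singleton]; omega),
    sum_insert (by simp only [mem_insert, mem_singleton]; omega),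
    sum_insert (by simp only [mem_insert, mem_singleton]; omega),
    sum_insert (by simp only [mem_insert, mem_singleton]; omega),
    sum_insert (by simp only [mem_singleton]; omega), sum_singleton, hval _ nb1, hval _ n1,
    hval _ nb2, hval _ nc2, a3, e3, l3, m3] at h9
  simp only [Matrix.cons_val_zero] at h9
  omega

lemma lle (a b : ℕ) (ha : 1 ≤ a) (hb : 1 ≤ b) (hab : a + 1 < b) (α : ℝ)
    (h0 : (a:ℝ) / (a + 2 * b - 1) + b / (3 * a + 3 * b - 1) + b / (4 * a + 4 * b - 1) +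
      b / (100 * b) ≤ α)
    (h1 : ((a:ℝ) + b) / (a + 2 * b - 1) ≤ α) (h2 : ((a:ℝ) + 2 * b) / (3 * a + 3 * b - 1) ≤ α)
    (h3 : (2 * (a:ℝ) + 3 * b) / (4 * a + 4 * b - 1) ≤ α) : LLe (Vab a b ha hb hab) α := by
  have e0 : ((a + 2 * b - 1 : ℕ) : ℝ) = a + 2 * b - 1 := by
    rw [Nat.cast_sub (by omega)]; push_cast; ring
  have e1 : ((3 * a + 3 * b - 1 : ℕ) : ℝ) = 3 * a + 3 * b - 1 := by
    rw [Nat.cast_sub (by omega)]; push_cast; ring
  have e3 : ((4 * a + 4 * b - 1 : ℕ) : ℝ) = 4 * a + 4 * b - 1 := by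
    rw [Nat.cast_sub (by omega)]; push_cast; ring
  have q1 : (3 * a + 3 * b - 1) / (a + 2 * b - 1) = 1 := by
    apply Nat.div_eq_of_lt_le <;> omega
  have q2 : (4 * a + 4 * b - 1) / (a + 2 * b - 1) = 2 := by
    apply Nat.div_eq_of_lt_le <;> omega
  have q3 : (4 * a + 4 * b - 1) / (3 * a + 3 * b - 1) = 1 := by
    apply Nat.div_eq_of_lt_le <;> omega
  refine ⟨?_, ?_⟩
  · have : rho (Vab a b ha hb hab) = (a:ℝ) / ((a + 2 * b - 1 : ℕ) : ℝ) +
        (b : ℝ) / ((3 * a + 3 * b - 1 : ℕ) : ℝ) + (b : ℝ) / ((4 * a + 4 * b - 1 : ℕ) : ℝ) +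
        (b : ℝ) / ((100 * b : ℕ) : ℝ) := by
      rw [rho]
      exact Fin.sum_univ_four (fun i : Fin 4 => (((![a, b, b, b] : Fin 4 → ℕ) i : ℕ) : ℝ) /
        (((![a + 2 * b - 1, 3 * a + 3 * b - 1, 4 * a + 4 * b - 1, 100 * b] : Fin 4 → ℕ) i : ℕ) : ℝ))
    rw [this, e0, e1, e3]
    push_cast
    exact h0
  · intro i hi
    have hi' : i = (0 : Fin 4) ∨ i = (1 : Fin 4) ∨ i = (2 : Fin 4) := by
      have : i.val + 1 < 4 := hi
      rcases i with ⟨v, hv⟩
      have hv' : v = 0 ∨ v = 1 ∨ v = 2 := by simp at this; omega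
      rcases hv' with rfl | rfl | rfl
      · left; rfl
      · right; left; rfl
      · right; right; rfl
    rcases hi' with rfl | rfl | rfl
    · have : muTerm (Vab a b ha hb hab) (0 : Fin 4) =
          ((a + b : ℕ) : ℝ) / ((a + 2 * b - 1 : ℕ) : ℝ) := by
        have e2 : (∑ j ∈ ({j | j ≤ (0 : Fin 4)} : Finset (Fin 4)),
            ((![a + 2 * b - 1, 3 * a + 3 * b - 1, 4 * a + 4 * b - 1, 100 * b] : Fin 4 → ℕ) 0 /
              (![a + 2 * b - 1, 3 * a + 3 * b - 1, 4 * a + 4 * b - 1, 100 * b] : Fin 4 → ℕ) j) *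
              (![a, b, b, b] : Fin 4 → ℕ) j +
              ({j | (0 : Fin 4) < j} : Finset (Fin 4)).sup ![a, b, b, b]) =
            a + b := by
          have s1 : ({j | j ≤ (0 : Fin 4)} : Finset (Fin 4)) = {0} := by decide
          have s2 : ({j | (0 : Fin 4) < j} : Finset (Fin 4)) = {1, 2, 3} := by decide
          rw [s1, s2, sum_singleton, sup_insert, sup_insert, sup_singleton]
          simp only [Matrix.cons_val_zero, Matrix.cons_val_one, Matrix.cons_val]
          rw [Nat.div_self (by omega)]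
          simp
        exact congrArg (fun z : ℕ => (z : ℝ) / ((a + 2 * b - 1 : ℕ) : ℝ)) e2
      rw [this, e0]
      push_cast
      exact h1
    · have : muTerm (Vab a b ha hb hab) (1 : Fin 4) =
          ((a + 2 * b : ℕ) : ℝ) / ((3 * a + 3 * b - 1 : ℕ) : ℝ) := by
        have e2 : (∑ j ∈ ({j | j ≤ (1 : Fin 4)} : Finset (Fin 4)),
            ((![a + 2 * b - 1, 3 * a + 3 * b - 1, 4 * a + 4 * b - 1, 100 * b] : Fin 4 → ℕ) 1 /
              (![a + 2 * b - 1, 3 * a + 3 * b - 1, 4 * a + 4 * b - 1, 100 * b] : Fin 4 → ℕ) j) *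
              (![a, b, b, b] : Fin 4 → ℕ) j +
              ({j | (1 : Fin 4) < j} : Finset (Fin 4)).sup ![a, b, b, b]) =
            a + 2 * b := by
          have s1 : ({j | j ≤ (1 : Fin 4)} : Finset (Fin 4)) = {0, 1} := by decide
          have s2 : ({j | (1 : Fin 4) < j} : Finset (Fin 4)) = {2, 3} := by decide
          rw [s1, s2, sum_pair (by decide), sup_insert, sup_singleton]
          simp only [Matrix.cons_val_zero, Matrix.cons_val_one, Matrix.cons_val]
          rw [Nat.div_self (by omega), q1]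
          simp
          omega
        exact congrArg (fun z : ℕ => (z : ℝ) / ((3 * a + 3 * b - 1 : ℕ) : ℝ)) e2
      rw [this, e1]
      push_cast
      exact h2
    · have : muTerm (Vab a b ha hb hab) (2 : Fin 4) =
          ((2 * a + 3 * b : ℕ) : ℝ) / ((4 * a + 4 * b - 1 : ℕ) : ℝ) := by
        have e2 : (∑ j ∈ ({j | j ≤ (2 : Fin 4)} : Finset (Fin 4)),
            ((![a + 2 * b - 1, 3 * a + 3 * b - 1, 4 * a + 4 * b - 1, 100 * b] : Fin 4 → ℕ) 2 /
              (![a + 2 * b - 1, 3 * a + 3 * b - 1, 4 * a + 4 * b - 1, 100 * b] : Fin 4 → ℕ) j) *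
              (![a, b, b, b] : Fin 4 → ℕ) j +
              ({j | (2 : Fin 4) < j} : Finset (Fin 4)).sup ![a, b, b, b]) =
            2 * a + 3 * b := by
          have s1 : ({j | j ≤ (2 : Fin 4)} : Finset (Fin 4)) = {0, 1, 2} := by decide
          have s2 : ({j | (2 : Fin 4) < j} : Finset (Fin 4)) = {3} := by decide
          rw [s1, s2, sum_insert (by decide), sum_pair (by decide), sup_singleton]
          simp only [Matrix.cons_val_zero, Matrix.cons_val_one, Matrix.cons_val]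
          rw [Nat.div_self (by omega), q2, q3]
          omega
        exact congrArg (fun z : ℕ => (z : ℝ) / ((4 * a + 4 * b - 1 : ℕ) : ℝ)) e2
      rw [this, e3]
      push_cast
      exact h3

lemma bound (α : ℝ) (hα : (1 + √17) / 8 < α) : ∃ V : Inst, LLe V α ∧ ¬ Feasible V := by
  set w := √17 with hw
  have hw2 : w ^ 2 = 17 := Real.sq_sqrt (by norm_num)
  have hw0 : 0 < w := Real.sqrt_pos.2 (by norm_num)
  have hwl : 4.123 < w := by
    rw [hw]; apply Real.lt_sqrt_of_sq_lt; norm_num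
  have hwu : w < 4.124 := by
    rw [hw, Real.sqrt_lt' (by norm_num)]; norm_num
  obtain ⟨c, hc⟩ : ∃ c, c = (1 + w) / 8 := ⟨_, rfl⟩
  obtain ⟨t, ht⟩ : ∃ t, t = (w - 1) / 4 := ⟨_, rfl⟩
  have r1 : c * (t + 2) = t + 1 := by rw [hc, ht]; nlinarith
  have r2 : c * (4 * t + 4) = 2 * t + 3 := by rw [hc, ht]; nlinarith
  have ht1 : 0.78 < t := by rw [ht]; linarith
  have ht2 : t < 0.782 := by rw [ht]; linarith
  have hc1 : 0.64 < c := by rw [hc]; linarith
  have hc2 : c < 0.641 := by rw [hc]; linarith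
  rw [← hc] at hα
  obtain ⟨ε, hε⟩ : ∃ ε, ε = α - c := ⟨_, rfl⟩
  have hε0 : 0 < ε := by rw [hε]; linarith
  obtain ⟨b, hb⟩ := exists_nat_gt (2 / ε + 1000)
  have hb10 : (1000:ℝ) < b := by
    have : 0 < 2 / ε := by positivity
    linarith
  have hbε : 2 ≤ ε * b := by
    have : 2 / ε < b := by linarith
    rw [div_lt_iff₀ hε0] at this
    linarith
  obtain ⟨a, haeq⟩ : ∃ a, a = ⌊t * b⌋₊ := ⟨_, rfl⟩
  have ha1 : (a:ℝ) ≤ t * b := by rw [haeq]; exact Nat.floor_le (by positivity)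
  have ha2 : t * b - 1 < a := by
    have := Nat.lt_floor_add_one (t * (b:ℝ))
    rw [← haeq] at this; linarith
  have ha3 : (a:ℝ) ≤ 0.782 * b := by nlinarith
  have ha4 : 0.779 * (b:ℝ) ≤ a := by nlinarith
  have hb1 : 1 ≤ b := by
    have : (1:ℝ) ≤ b := by linarith
    exact_mod_cast this
  have ha0 : 1 ≤ a := by
    have : (0:ℝ) < a := by linarith
    have h : 0 < a := by exact_mod_cast this
    exact h
  have hab : a + 1 < b := by
    have : (a:ℝ) + 1 < b := by linarith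
    exact_mod_cast this
  have hα' : α = c + ε := by rw [hε]; ring
  refine ⟨Vab a b ha0 hb1 hab, lle a b ha0 hb1 hab α ?_ ?_ ?_ ?_, infeasible a b ha0 hb1 hab⟩
  · have p1 : (a:ℝ) / (a + 2 * b - 1) ≤ 0.283 := by
      rw [div_le_iff₀ (by linarith)]; linarith
    have p2 : (b:ℝ) / (3 * a + 3 * b - 1) ≤ 0.19 := by
      rw [div_le_iff₀ (by linarith)]; linarith
    have p3 : (b:ℝ) / (4 * a + 4 * b - 1) ≤ 0.145 := by
      rw [div_le_iff₀ (by linarith)]; linarith
    have p4 : (b:ℝ) / (100 * b) ≤ 0.01 := by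
      rw [div_le_iff₀ (by linarith)]; linarith
    linarith
  · rw [div_le_iff₀ (by linarith), hα']
    have s1 : (a:ℝ) * (1 - c) ≤ t * b * (1 - c) := by
      apply mul_le_mul_of_nonneg_right ha1; linarith
    have s2 : t * b * (1 - c) = b * (2 * c - 1) := by linear_combination (-(b:ℝ)) * r1
    have s3 : c ≤ ε * (a + 2 * b - 1) := by nlinarith
    linarith [s1, s2, s3]
  · rw [div_le_iff₀ (by linarith), hα']
    have s3 : 0 ≤ ε * (3 * (a:ℝ) + 3 * b - 1) := by
      apply mul_nonneg hε0.le; linarith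
    have s4 : 0.6 * (3 * (a:ℝ) + 3 * b - 1) ≤ c * (3 * a + 3 * b - 1) := by
      apply mul_le_mul_of_nonneg_right (by linarith); linarith
    linarith [s3, s4]
  · rw [div_le_iff₀ (by linarith), hα']
    have s1 : (t * b - 1) * (4 * c - 2) ≤ a * (4 * c - 2) := by
      apply mul_le_mul_of_nonneg_right ha2.le; linarith
    have s2 : t * b * (4 * c - 2) = b * (3 - 4 * c) := by linear_combination (b:ℝ) * r2
    have s3 : c + 0.6 ≤ ε * (4 * a + 4 * b - 1) := by nlinarith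
    linarith [s1, s2, s3]

theorem result : alphaStar ≤ (1 + √17) / 8 := by
  apply csSup_le
  · refine ⟨-1, fun V hV => ?_⟩
    exfalso
    have h1 := hV.1
    have h2 : 0 ≤ rho V := sum_nonneg fun i _ => by positivity
    linarith
  · intro α hα
    by_contra hcon
    push Not at hcon
    obtain ⟨V, hV, hn⟩ := bound α hcon
    exact hn (hα V hV)

end Pool.Agent.Results.MP_020ed8_lc.UpperBound
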